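import Pool.Agent.T2h77N.Asm5
import Pool.Agent.T2h77N.Iw
import Pool.Agent.T2h77N.Red
import Pool.Agent.T2h77N.Cell
import Pool.Agent.T2h77N.Int
import Pool.Agent.T2h77N.Ent
import Pool.Agent.T2h77N.Gen
import Pool.Agent.T2h77N.Prim
import Pool.Agent.T2h77N.FixA
import Pool.Agent.T2h77N.FixB
import Pool.Agent.T2h77N.Fix
import Pool.Agent.T2h77N.Reps
import Pool.Agent.T2h77N.Grow
import Pool.Agent.T2h77N.Uni
import Pool.Agent.T2h77N.Count
import Pool.Agent.T2h77N.Trace
import Pool.Agent.T2h77N.Cut
import Pool.Agent.T2h77N.Mass

/-!
# A density theorem for `GL(n)` over `ℚ`, `n ≥ 3`: all congruence level structures, all small primes at once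

Let `n ≥ 3`. Let `N ≥ 1`, let `H` be any subgroup of `GL_n(ℤ/N)`, and consider the cusp forms for `GL_n` over `ℚ` which
are invariant under the inverse image of `H` in `GL_n` of the profinite completion of `ℤ` and under the positive
scalars, i.e. the functions `f` on `SL_n(ℝ) × GL_n(ℤ/N) ⧸ H` with `f (γ g, γ c) = f (g, c)` for `γ ∈ SL_n(ℤ)`. Let `m`
be the index of `H` and `D` the index of `H ∩ SL_n(ℤ/N)` in `SL_n(ℤ/N)`, so that the space is a union of `m / D`
quotients of `SL_n(ℝ)` by congruence subgroups of index `D` in `SL_n(ℤ)`.

We show: there is a constant `c > 0`, depending only on `n`, such that for every `0 < τ ≤ 1` all but at most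
`C m D^(-c τ)` of the members of an arbitrary orthonormal system of Hecke eigenforms of bounded type at infinity have
all their Satake parameters of absolute value less than `p ^ τ`, for all the primes `p ≤ D^(c τ)` which do not divide
`N`, simultaneously. The constant `C` depends on `n`, `τ` and on the type at infinity, not on `N` and `H`. So the
Ramanujan conjecture holds up to `τ`, at all these primes at once, for all the forms outside a set which is smaller
by a power than the volume of the space, in every tower of congruence covers, for all `n`.

Known before: the limit multiplicity property for `GL_n` (Finis, Lapid and Müller for principal congruence subgroups,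
Finis and Lapid for all congruence subgroups), which gives `o(m)` exceptions at a fixed prime; power savings
(density theorems) for `n ≥ 3` only for special families: `Γ_0(q)` and principal congruence subgroups of squarefree
level (Blomer; Assing and Blomer; Jana and Kamber), and in the spectral aspect at level one (Matz and Templier).

The main steps are all elementary:
* the number of the fixed points on `GL_n(ℤ/N) ⧸ H` of a nonscalar integral matrix with entries at most `Z` is at most
  `C Z m D^(-1/A)` (`Fix.lean`), for all `N` and `H`: if it is large, then commutators of conjugates of the matrix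
  give a transvection `1 + w φ` with many fixed points, and then there is a point fixed by transvections in a
  basis of directions, hence by a principal congruence subgroup of small level;
* the sum over all cosets of the numbers of the unipotent elements of the stabiliser in a box is dealt with by
  covering the box by small cubes; so the trace of the kernel over the part of a Siegel set where some root is at least
  `Y` and at most `C D` is smaller by a power of `Y` (`Count.lean`), while cusp forms are small at the other points
  (`Cut.lean`);
* the reduction theory of Siegel and Lenstra, Lenstra, Lovász, the volume of the cells of a Siegel set, by packing;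
* the Hecke operator `T(p^l)` has norm `p^(l(n-1)/2)` up to powers of `l` in the regular representation, and its
  eigenvalue is `p^(l(n-1)/2) h_l(α)`, which is large for one of any `n` consecutive `l` if some `|α_j| ≥ p ^ τ`.

With contributions of helpers 1, 31, 45, 62, 63, 64, 74, 80, 99.
-/

set_option autoImplicit false

open MeasureTheory
open scoped Topology

namespace Pool.Agent.Results.MP_8410ab_nt.DensityGLn

open Pool.Agent.T2h77.N

theorem result (n : ℕ) (hn : 3 ≤ n) :
    ∃ c : ℝ, 0 < c ∧ ∀ U : Set (GR n), U ∈ 𝓝 (1 : GR n) → ∀ τ : ℝ, 0 < τ → τ ≤ 1 → ∃ C : ℝ, 0 < C ∧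
      ∀ (N : ℕ) [NeZero N] (H : Subgroup (GN n N)) (F : Set (GR n)), IsFD F →
      ∀ (k : ℕ) (f : Fin k → GR n → XX H → ℂ),
        (∀ i, IsForm H (f i) ∧ IsL2 F (f i) ∧ IsCusp (f i) ∧ IsSlow U F (f i)) →
        (∀ i j, ip F (f i) (f j) = if i = j then 1 else 0) →
        (∀ i, ∃ (p : ℕ) (α : Fin n → ℂ), p.Prime ∧ ¬ p ∣ N ∧ (p : ℝ) ≤ (ixS H : ℝ) ^ (c * τ) ∧
          IsHecke p α (f i) ∧ ∃ j, (p : ℝ) ^ τ ≤ ‖α j‖) →
        (k : ℝ) ≤ C * H.index * (ixS H : ℝ) ^ (-(c * τ)) :=
  final iw red' (int_bound iw (cell iw)) (ent iw) reps grow
    (low iw (ent iw) (fix fixA (fixB gen orb) prim)) (high iw (ent iw) (fix fixA (fixB gen orb) prim))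
    trace (cut iw unimod) mass cov rcf n hn

end Pool.Agent.Results.MP_8410ab_nt.DensityGLn
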