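import Pool.Agent.T2h77N.AsmI2
import Pool.Agent.T2h77N.Iw
import Pool.Agent.T2h77N.Red
import Pool.Agent.T2h77N.Cell
import Pool.Agent.T2h77N.Int
import Pool.Agent.T2h77N.Ent
import Pool.Agent.T2h77N.Gen
import Pool.Agent.T2h77N.Prim
import Pool.Agent.T2h77N.FixA
import Pool.Agent.T2h77N.FixB
import Pool.Agent.T2h77N.Fix
import Pool.Agent.T2h77N.Uni
import Pool.Agent.T2h77N.Count
import Pool.Agent.T2h77N.Low2
import Pool.Agent.T2h77N.Trace
import Pool.Agent.T2h77N.Trace2
import Pool.Agent.T2h77N.Cut
import Pool.Agent.T2h77N.Mass
import Pool.Agent.T2h77N.Polar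
import Pool.Agent.T2h77N.Bart
import Pool.Agent.T2h77N.GJ
import Pool.Agent.T2h77N.Lb
import Pool.Agent.T2h77N.Norm
import Pool.Agent.T2h77N.Ker
import Pool.Agent.T2h77N.Near

/-!
# A density theorem for `GL(n)` over `ℚ` at the infinite place, `n ≥ 3`: all congruence level structures

Let `n ≥ 3`. Let `N ≥ 1`, let `H` be any subgroup of `GL_n(ℤ/N)`, and consider the cusp forms for `GL_n` over `ℚ` which
are invariant under the inverse image of `H` in `GL_n` of the profinite completion of `ℤ` and under the positive
scalars, i.e. the functions `f` on `SL_n(ℝ) × GL_n(ℤ/N) ⧸ H` with `f (γ g, γ c) = f (g, c)` for `γ ∈ SL_n(ℤ)`. Let `m`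
be the index of `H` and `D` the index of `H ∩ SL_n(ℤ/N)` in `SL_n(ℤ/N)`.

We show: there is a constant `c > 0`, depending only on `n`, such that for all `0 < τ ≤ 1` and `T` an orthonormal
system of cusp forms of level `H` which are spherical at the infinite place, with Langlands parameters `ν_1, ..., ν_n`
of size at most `T`, some of which has a real part of absolute value at least `τ`, has at most `C m D^(-c τ)` members;
`C` depends on `n`, `τ` and `T`, not on `N` and `H`. So all but a power saving fraction of the spherical cusp forms
with bounded parameters satisfy the Ramanujan conjecture at the infinite place (`Re ν_j = 0`, the generalisation of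
the conjecture of Selberg) up to `τ`, in every tower of congruence covers, for all `n ≥ 3`.

Known before: limit multiplicity (Finis, Lapid and Müller for principal congruence subgroups, Finis and Lapid for all
congruence subgroups), i.e. `o(m)` exceptions; power savings for `n ≥ 3` only for special families: `Γ_0(q)` and
principal congruence subgroups of squarefree level (Blomer; Assing and Blomer; Jana and Kamber).

Besides the steps of the theorem at the finite places (fixed points of integral matrices on `GL_n(ℤ/N) ⧸ H`, counting
over a Siegel set, reduction theory, cusp forms are small at the points of large height), the proof uses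
* test functions from the zeta integral of Godement and Jacquet: the spherical transform of the function
  `g ↦ ∫ exp(-π y^2 ‖g‖^2) y^(n (n-1)/2 - 1) W(y) dy` is the integral of `exp(-π ∑ r_i^2) ∏ r_i^(ν_i - 1) W((∏ r_i)^(1/n))`,
  by Bartlett's decomposition of the Gaussian measure on matrices (`Polar.lean`, `Bart.lean`, `GJ.lean`);
* for `W(y) = w^(k)(n log y + s)`, `w` a bump function, this integral is at least `c exp(-s Re ν_i)` for one of the
  derivatives `k < n`, where `Re ν_i` is the smallest real part (`Lb.lean`), uniformly in the parameters: a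
  differential operator in `s` of order `n - 1` removes the other parameters;
* the truncated kernels have bounded `L^2` norm and support in a ball of radius `X^B` (`Norm.lean`, `Ker.lean`).

With contributions of helpers 1, 26, 31, 40, 45, 59, 62, 63, 64, 74, 80, 99.
-/

set_option autoImplicit false

open MeasureTheory

namespace Pool.Agent.Results.MP_8410ab_nt.DensityGLnInfinite

open Pool.Agent.T2h77.N

theorem result (n : ℕ) (hn : 3 ≤ n) :
    ∃ c : ℝ, 0 < c ∧ ∀ τ T : ℝ, 0 < τ → τ ≤ 1 → ∃ C : ℝ, 0 < C ∧
      ∀ (N : ℕ) [NeZero N] (H : Subgroup (GN n N)) (F : Set (GR n)), IsFD F →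
      ∀ (k : ℕ) (f : Fin k → GR n → XX H → ℂ) (ν : Fin k → Fin n → ℂ),
        (∀ i, IsForm H (f i) ∧ IsL2 F (f i) ∧ IsCusp (f i) ∧ IsSph (ν i) (f i)) →
        (∀ i j, ip F (f i) (f j) = if i = j then 1 else 0) →
        (∀ i, ∑ j, ν i j = 0 ∧ (∀ j, ‖ν i j‖ ≤ T) ∧ ∃ j, τ ≤ |(ν i j).re|) →
        (k : ℝ) ≤ C * H.index * (ixS H : ℝ) ^ (-(c * τ)) :=
  finalInf iw red' (int_bound iw (cell iw)) (ent iw) (high iw (ent iw) (fix fixA (fixB gen orb) prim))
    (low2 iw (fix fixA (fixB gen orb) prim)) trace trace2 (cut iw unimod) cov rcf
    (ker iw (gjp polar bart) (gj polar bart) lb (norm polar bart)) (near iw) n hn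

end Pool.Agent.Results.MP_8410ab_nt.DensityGLnInfinite
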