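import Pool.Agent.T2h77N.McF

/-!
# The multiplicities of the non-tempered representations of `SL_n(ℝ)` in the cuspidal spectrum of `GL(n)` over `ℚ`

Let `n ≥ 3`. Let `N ≥ 1`, let `H` be any subgroup of `GL_n(ℤ/N)`, and consider the cusp forms for `GL_n` over `ℚ` which
are invariant under the inverse image of `H` in `GL_n` of the profinite completion of `ℤ` and under the positive
scalars, i.e. the functions `f` on `SL_n(ℝ) × GL_n(ℤ/N) ⧸ H` with `f (γ g, γ c) = f (g, c)` for `γ ∈ SL_n(ℤ)`. Let `m`
be the index of `H` and `D` the index of `H ∩ SL_n(ℤ/N)` in `SL_n(ℤ/N)`, so that the space is a union of `m / D`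
quotients of `SL_n(ℝ)` by congruence subgroups of index `D` in `SL_n(ℤ)`.

Let `π` be a unitary representation of `SL_n(ℝ)` with a matrix coefficient whose square has an integral of size at
least `c₀ X ^ τ` over the balls `‖g‖ ≤ X`, `τ > 0`. We show: the multiplicity of `π` in the space of the square
integrable cusp forms of level `H` is at most `C m D^(-c τ)`, where `c > 0` depends only on `n` and `C` does not depend
on `N` and `H`. So every representation of this kind occurs with a multiplicity which is smaller by a power than the
volume, in every tower of congruence covers. Here `π` may be ramified in the sense that it need not be spherical: no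
assumption is made on the `K`-types. The coefficient is the one of an arbitrary vector `v` and of `π(χ) w`, `χ` a
continuously differentiable function of compact support. By the asymptotic expansion of matrix coefficients, each
irreducible unitary representation which is not tempered has such vectors, even `K`-finite ones, for some `τ > 0`,
whereas the integrals over balls are `O((log X)^A)` for the `K`-finite vectors of tempered representations; this
background is not used in the proof and not proved here.

Known before: the multiplicities are `o(m)` (limit multiplicity: Savin for principal congruence subgroups; Finis,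
Lapid and Müller, Finis and Lapid for `GL_n`, all congruence subgroups). A power saving was known for cocompact
quotients of `SL_2(ℝ)` and `SL_2(ℂ)` (Sarnak and Xue) and in some towers of other arithmetic groups.

The main steps, besides those of the results `DensityGLn` and `DensityGLnInfinite` (whose library is used), are
* the test function at level `H` is the conjugate of the matrix coefficient, cut off at a ball of radius a small power
  of `D`; the inner product of `R(κ) f` and `R(χ) h`, where `f` and `h` are the images of `v` and `w`, is the integral
  of the square of the coefficient over the ball, by unfolding twice (`McA.lean`);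
* the trace inequality is applied to `R(κ) f` over the part of a Siegel set of bounded height, and to `R(χ) h` over the
  points of medium height; the contribution of the points of height at least `D^A` is negligible, by an explicit form
  of the decay of cusp forms, even against the growth of the norm of the operator `R(κ)` (`McB.lean`, `McC.lean`). So
  no information on the `K`-types of `R(κ) f` is needed.

With contributions (to the library) of helpers 1, 26, 31, 40, 45, 59, 62, 63, 64, 74, 80, 99.
-/

set_option autoImplicit false

open MeasureTheory

namespace Pool.Agent.Results.MP_8410ab_nt.NonTemperedMultiplicity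

open Pool.Agent.T2h77.N

theorem result (n : ℕ) (hn : 3 ≤ n) :
    ∃ c : ℝ, 0 < c ∧
      ∀ (E : Type) [NormedAddCommGroup E] [InnerProductSpace ℂ E] [CompleteSpace E] (π : GR n →* (E ≃ₗᵢ[ℂ] E)),
        (∀ v, Continuous fun g => π g v) →
      ∀ (v w : E) (χ : GR n → ℝ) (τ c₀ X₀ : ℝ), ‖v‖ = 1 → ‖w‖ = 1 → IsSm χ → 0 < τ → τ ≤ 1 → 0 < c₀ →
        (∀ X : ℝ, X₀ ≤ X → c₀ * X ^ τ ≤
          ∫ g in {g : GR n | hsn g ≤ X}, ‖inner ℂ (∫ y, (χ y : ℂ) • π y w ∂(mu n)) (π g v)‖ ^ 2 ∂(mu n)) →
      ∃ C : ℝ, 0 < C ∧ ∀ (N : ℕ) [NeZero N] (H : Subgroup (GN n N)) (F : Set (GR n)), IsFD F →
        ∀ (k : ℕ) (T : Fin k → E → GR n → XX H → ℂ), (∀ i, IsEmb F π (T i)) →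
          (∀ i j, i ≠ j → ∀ v w, ip F (T i v) (T j w) = 0) →
          (k : ℝ) ≤ C * H.index * (ixS H : ℝ) ^ (-(c * τ)) :=
  mult_rep n hn

end Pool.Agent.Results.MP_8410ab_nt.NonTemperedMultiplicity
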