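import Pool.Agent.T2h77Z.Top

/-!
# An explicit density theorem for the universal family of cusp forms of `GL_n` over `ℚ`, `n ≥ 3`, in the level aspect

Let `n ≥ 3`. Consider the cusp forms for `GL_n` over `ℚ` of level `K_1(N)`: the functions `f` on
`SL_n(ℝ) × GL_n(ℤ/N) ⧸ H1`, `H1` the stabiliser of a basis vector, with `f (γ g, γ c) = f (g, c)` for `γ ∈ SL_n(ℤ)`. By the
theory of newforms they generate the cuspidal automorphic representations of conductor dividing `N`, with arbitrary
nebentypus (the universal family of Sarnak, Shin and Templier); there are about `N^n` forms of bounded type at infinity.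

We show: for all `τ, ε > 0` there is a constant `C`, depending on `n`, `τ`, `ε` and on the type at infinity only, such that
for all `N ≥ 1` and `X ≥ 1` at most

  `C X^2 N^(n - min (2 τ) ((n - 1) / n²) + ε)`

members of an orthonormal system of Hecke eigenforms of level `K_1(N)` have a Satake parameter of absolute value at
least `p^τ` at some prime `p ≤ X` not dividing `N`. So for `τ ≤ (n-1)/(2n²)` the exponent of `N` is `n - 2 τ`; the density
hypothesis of Sarnak would be the exponent `n (1 - 2 τ / (n-1))`, so we save the part `(n-1)/n` of the conjectural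
saving. The Ramanujan conjecture says that there are no such forms.

In `DensityGLn` (all level structures) the exponent is not explicit: it comes from commutators of many
matrices. Here all steps are effective:
* a large sieve inequality for the eigenvalues of the Hecke operators `T(m)`, `m ≤ N^(1-δ)`, at every point of bounded height:
  the integral matrices `W` with `W v = 0` modulo `N` for a primitive vector `v` have determinant divisible by `N`, so a
  matrix `W = β' - β` with `β⁻¹ W` bounded, `det β = m`, is singular; the singular ones are counted with the lattices which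
  contain their rows (project LG);
* at a point of height `y` this holds for `m ≤ N y^(-n²)`; the loss `y^(2n²τ)` is compensated by the volume `y^(-(n-1))` of the
  set of these points, as long as `2 n² τ ≤ n - 1`;
* at the points of greater height it is enough to count the matrices `γ ≠ 1` of `SL_n(ℤ)` with bounded `x⁻¹ γ x` and `γ v = v` modulo
  `N`: there are at most `C N^(n-1+ε)` times the product of the roots of `x` pairs `(γ, v)`, because the kernel of
  `γ - 1` modulo `N` has at most `N^(n-1) gcd(N, γ - 1)` elements;
* one of any `n` consecutive eigenvalues of `T(p^l)` is as large as `|α_j|^l`.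

With contributions of helpers 5, 6, 7, 23, 25 and of the authors of the projects `T2h77N` and `T2h79/LG`.
-/

set_option autoImplicit false

open MeasureTheory
open scoped Topology

namespace Pool.Agent.Results.MP_8410ab_nt.UniversalFamily

open Pool.Agent.T2h77.N Pool.Agent.T2h79.LG

theorem result (n : ℕ) (hn : 3 ≤ n) (U : Set (GR n)) (hU : U ∈ 𝓝 (1 : GR n)) (τ ε : ℝ) (hτ : 0 < τ) (hε : 0 < ε) :
    ∃ C : ℝ, 0 < C ∧ ∀ (N : ℕ) [NeZero N] (F : Set (GR n)), IsFD F →
      ∀ (k : ℕ) (f : Fin k → GR n → XX (H1 n N) → ℂ) (l : Fin k → ℕ → ℂ),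
        (∀ i, IsForm (H1 n N) (f i) ∧ IsL2 F (f i) ∧ IsCusp (f i) ∧ IsSlow U F (f i)) →
        (∀ i j, ip F (f i) (f j) = if i = j then 1 else 0) →
        (∀ i, IsEig (l i) (f i)) →
        ∀ X : ℝ, 1 ≤ X →
        (∀ i, ∃ (p : ℕ) (α : Fin n → ℂ), p.Prime ∧ ¬ p ∣ N ∧ (p : ℝ) ≤ X ∧
          (∀ r : ℕ, l i (p ^ r) = hs α r) ∧ ∃ j, (p : ℝ) ^ τ ≤ ‖α j‖) →
        (k : ℝ) ≤ C * X ^ 2 * (N : ℝ) ^ ((n : ℝ) - min (2 * τ) (((n : ℝ) - 1) / n ^ 2) + ε) := by
  obtain ⟨C, hC, h⟩ := Pool.Agent.T2h77.Z.u_uni n hn U hU τ ε hτ hε
  refine ⟨C, hC, fun N _ F hF k f l hf hon heig X hX hv => h N F hF k f l hf hon heig X hX fun i => ?_⟩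
  obtain ⟨p, α, hp, hpN, hpX, hα, hj⟩ := hv i
  exact ⟨p, hpX, hp, hpN, α, hα, hj⟩

end Pool.Agent.Results.MP_8410ab_nt.UniversalFamily
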